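import Pool.Agent.EGF.Stmts

set_option autoImplicit false

open Finset

namespace Pool.Agent.EGF.H69

theorem flt (hDRE : DreStmt) (hPAL : PalStmt) : FltStmt := by
  intro V _ k c U X a θ t ε s h4 hR hθ hXU hX ht ht2 hε hε1 hs hdeg
  have hU : U.Nonempty := hR.1
  obtain ⟨X', hX'X, hX'ne, hlog, hcom⟩ := hDRE V k c X U a t ε s hX hU ht ht2 hε hε1 hs hdeg
  refine ⟨X', hX'X, hX'ne, ?_, hlog⟩
  have hUpos : (0 : ℝ) < U.card := by exact_mod_cast Finset.card_pos.mpr hU
  have hlogt : 0 ≤ Real.log (1 / t) := by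
    apply Real.log_nonneg
    rw [le_div_iff₀ ht]; linarith
  have hse : (0 : ℝ) ≤ (s : ℝ) / ε := by positivity
  intro S hS hSc
  by_cases hSe : S = ∅
  · subst hSe
    have h0 : pal c (∅ : Finset V) = ∅ := by
      simp [pal]
    rw [h0]
    simp only [Finset.card_empty, Nat.cast_zero]
    positivity
  have hSne : S.Nonempty := Finset.nonempty_iff_ne_empty.mpr hSe
  have hT := hcom S hS hSne hSc
  set T : Finset V := U.filter fun y => ∀ x ∈ S, y ≠ x ∧ c x y = a with hTdef
  have hpow : (0 : ℝ) < t ^ (1 + (s : ℝ) / ε) := Real.rpow_pos_of_pos ht _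
  have hTpos : (0 : ℝ) < T.card := lt_of_lt_of_le (mul_pos hpow hUpos) hT
  have hTne : T.Nonempty := by
    apply Finset.card_pos.mp
    exact_mod_cast hTpos
  have hpal := hPAL V k c U θ h4 hR hθ.le S ((hS.trans hX'X).trans hXU) T
    (Finset.filter_subset _ _) hTne a (by
      intro x hx y hy
      have := (Finset.mem_filter.mp hy).2 x hx
      exact ⟨fun h => this.1 h.symm, this.2⟩)
  have hl : Real.log (t ^ (1 + (s : ℝ) / ε) * U.card) ≤ Real.log T.card :=
    Real.log_le_log (mul_pos hpow hUpos) hT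
  rw [Real.log_mul hpow.ne' hUpos.ne', Real.log_rpow ht] at hl
  have hlt : Real.log (1 / t) = - Real.log t := by
    rw [one_div, Real.log_inv]
  rw [le_div_iff₀ hθ, hlt]
  nlinarith

end Pool.Agent.EGF.H69
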