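import Pool.Agent.EGF.StmtsQ

/-! # Row LOC of squad EGF: many colours at a vertex -/

set_option autoImplicit false

open Finset

namespace Pool.Agent.EGF.H69

theorem loc (hmaj : MajStmt) : LocStmt := by
  intro V _ k c W s L hsym
  have key : ∀ m : ℕ, ∀ W : Finset V, smax c W ≤ m → No3 c W → Flat c W s (L * s) → 1 ≤ L →
      32 * L + 1 ≤ s → Real.log W.card ≤ smax c W * Real.log ((s : ℝ) ^ 2) + 3 := by
    intro m
    induction m using Nat.strong_induction_on with
    | _ m ih =>
      intro W hm h3 hflat hL hs
      have hs33 : (33 : ℝ) ≤ s := by linarith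
      have hs2 : (1 : ℝ) ≤ (s : ℝ) ^ 2 := by nlinarith
      have hlog : 0 ≤ Real.log ((s : ℝ) ^ 2) := Real.log_nonneg hs2
      by_cases h8 : W.card < 8
      · have h1 : Real.log W.card ≤ 3 := by
          rcases Nat.eq_zero_or_pos W.card with h0 | h0
          · rw [h0]; simp
          · have h2 : (W.card : ℝ) ≤ 8 := by exact_mod_cast h8.le
            have h3' : (0 : ℝ) < W.card := by exact_mod_cast h0
            have h4 : Real.log W.card ≤ Real.log 8 := Real.log_le_log h3' h2
            have h5 : Real.log 8 = 3 * Real.log 2 := by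
              rw [show (8 : ℝ) = 2 ^ 3 by norm_num, Real.log_pow]; norm_num
            have h6 := Real.log_two_lt_d9
            linarith
        have h2 : 0 ≤ (smax c W : ℝ) * Real.log ((s : ℝ) ^ 2) := mul_nonneg (by positivity) hlog
        linarith
      · push_neg at h8
        have hmj := hmaj V k c W s L hsym hflat hL hs h8
        have hne : (maj c W (1 / (s : ℝ) ^ 2)).Nonempty := by
          rw [← Finset.card_pos]
          have h1 : (8 : ℝ) ≤ W.card := by exact_mod_cast h8
          have h2 : (0 : ℝ) < (maj c W (1 / (s : ℝ) ^ 2)).card := by linarith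
          exact_mod_cast h2
        obtain ⟨x, hx⟩ := hne
        have hxW : x ∈ W := (Finset.mem_filter.1 hx).1
        obtain ⟨a, ha⟩ := (Finset.mem_filter.1 hx).2
        have h1 : (8 : ℝ) ≤ W.card := by exact_mod_cast h8
        have hWpos : (0 : ℝ) < W.card := by linarith
        have hspos : (0 : ℝ) < (s : ℝ) ^ 2 := by linarith
        have hW'pos : (0 : ℝ) < ((nb c W a x).card : ℝ) :=
          lt_of_lt_of_le (mul_pos (by positivity) hWpos) ha
        have hsub : nb c W a x ⊆ W := Finset.filter_subset _ _
        have hmem : ∀ y ∈ nb c W a x, y ∈ W ∧ y ≠ x ∧ c x y = a := fun y hy =>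
          ⟨(Finset.mem_filter.1 hy).1, (Finset.mem_filter.1 hy).2.1, (Finset.mem_filter.1 hy).2.2⟩
        have hstar : ∀ y ∈ nb c W a x, a ∈ star c W y := by
          intro y hy
          obtain ⟨hyW, hyx, hya⟩ := hmem y hy
          exact Finset.mem_image.2 ⟨x, Finset.mem_filter.2 ⟨hxW, fun h => hyx h.symm⟩,
            by rw [hsym y x, hya]⟩
        have hle : ∀ y ∈ W, (star c W y).card ≤ smax c W := fun y hy =>
          Finset.le_sup (f := fun x => (star c W x).card) hy
        have hlt : smax c (nb c W a x) < smax c W := by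
          have h0 : 0 < smax c W := by
            have hne' : (nb c W a x).Nonempty := by
              rw [← Finset.card_pos]; exact_mod_cast hW'pos
            obtain ⟨y, hy⟩ := hne'
            exact lt_of_lt_of_le (Finset.card_pos.2 ⟨a, hstar y hy⟩) (hle y (hmem y hy).1)
          unfold smax
          rw [Finset.sup_lt_iff (by exact h0)]
          intro y hy
          refine lt_of_lt_of_le ?_ (hle y (hmem y hy).1)
          apply Finset.card_lt_card
          rw [Finset.ssubset_iff_of_subset]
          · refine ⟨a, hstar y hy, ?_⟩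
            intro h
            obtain ⟨z, hz, hza⟩ := Finset.mem_image.1 h
            obtain ⟨hzW', hzy⟩ := Finset.mem_filter.1 hz
            obtain ⟨hzW, hzx, hza'⟩ := hmem z hzW'
            obtain ⟨hyW, hyx, hya⟩ := hmem y hy
            exact h3 x hxW y hyW z hzW (fun h => hyx h.symm) (fun h => hzx h.symm)
              (fun h => hzy h.symm) (by rw [hya, hza']) (by rw [hza, hya])
          · intro b hb
            obtain ⟨z, hz, hzb⟩ := Finset.mem_image.1 hb
            obtain ⟨hzW', hzy⟩ := Finset.mem_filter.1 hz
            exact Finset.mem_image.2 ⟨z, Finset.mem_filter.2 ⟨hsub hzW', hzy⟩, hzb⟩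
        have h3' : No3 c (nb c W a x) := fun x hx y hy z hz =>
          h3 x (hsub hx) y (hsub hy) z (hsub hz)
        have hflat' : Flat c (nb c W a x) s (L * s) := fun S hS hSc =>
          hflat S (hS.trans hsub) hSc
        have hrec := ih (smax c (nb c W a x)) (lt_of_lt_of_le hlt hm) (nb c W a x) le_rfl h3' hflat'
          hL hs
        have hlogW : Real.log W.card ≤ Real.log (nb c W a x).card + Real.log ((s : ℝ) ^ 2) := by
          rw [← Real.log_mul hW'pos.ne' hspos.ne']
          apply Real.log_le_log hWpos
          have h4 : (W.card : ℝ) = (1 / (s : ℝ) ^ 2 * W.card) * (s : ℝ) ^ 2 := by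
            field_simp
          rw [h4]
          exact mul_le_mul_of_nonneg_right ha hspos.le
        have hc : ((smax c (nb c W a x) : ℕ) : ℝ) + 1 ≤ smax c W := by exact_mod_cast hlt
        have h5 : (((smax c (nb c W a x) : ℕ) : ℝ) + 1) * Real.log ((s : ℝ) ^ 2) ≤
            smax c W * Real.log ((s : ℝ) ^ 2) := mul_le_mul_of_nonneg_right hc hlog
        linarith
  intro h3 hflat hL hs
  exact key _ W le_rfl h3 hflat hL hs

end Pool.Agent.EGF.H69
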